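import Pool.Agent.H29.RS.Targets
import Pool.Agent.H53.RT.COSb

/-!
# (CSB) the core, exponent above one
-/

set_option autoImplicit false

open Complex MeasureTheory Set Filter Topology

namespace Pool.Agent.H3.RS

open Pool.Agent.H29.RT Pool.Agent.H29.RS Pool.Agent.H25.DP Pool.Agent.H25.DL Pool.Agent.H25.MZ
open Pool.Agent.H53.RT (continuous_AL continuous_BR)

/-- strict convexity of the power function on two intervals of the same length -/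
lemma convex_gap {α x₁ x₂ d : ℝ} (h1 : 1 < α) (hx1 : 0 < x₁) (hx : x₁ < x₂)
    (hd : x₂ < d / 2) : x₂ ^ α - x₁ ^ α < (d - x₁) ^ α - (d - x₂) ^ α := by
  have hc := strictConvexOn_rpow h1
  have m1 : x₁ ∈ Ici (0 : ℝ) := mem_Ici.2 hx1.le
  have m2 : x₂ ∈ Ici (0 : ℝ) := mem_Ici.2 (by linarith)
  have m3 : d - x₂ ∈ Ici (0 : ℝ) := mem_Ici.2 (by linarith)
  have m4 : d - x₁ ∈ Ici (0 : ℝ) := mem_Ici.2 (by linarith)
  have s1 := hc.slope_strict_mono_adjacent m1 m3 hx (by linarith : x₂ < d - x₂)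
  have s2 := hc.slope_strict_mono_adjacent m2 m4 (by linarith : x₂ < d - x₂)
    (by linarith : d - x₂ < d - x₁)
  have s3 := s1.trans s2
  have e : d - x₁ - (d - x₂) = x₂ - x₁ := by ring
  rw [e, div_lt_div_iff_of_pos_right (by linarith)] at s3
  exact s3

/-- the parameters -/
lemma paramsB {d α ε κ : ℝ} (hd : 0 < d) (hd2 : d < 2 * κ) (h1 : 1 < α) (hε : 0 < ε) :
    ∃ x₁ x₂ D D' δ : ℝ, 0 < x₁ ∧ x₁ < x₂ ∧ x₂ < d ∧ 0 < δ ∧ x₂ + δ < D' ∧ D' < κ ∧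
      d - x₁ + δ < D ∧ D < κ ∧ 2 * D ≤ d + ε / 4 ∧ 0 < x₁ - δ ∧ 0 < d - x₂ + δ ∧
      0 < d - x₁ - δ ∧
      (x₂ + δ) ^ α - (x₁ - δ) ^ α < (d - x₁ - δ) ^ α - (d - x₂ + δ) ^ α := by
  obtain ⟨k, hk⟩ : ∃ k : ℝ, k = min (min (d / 8) ((κ - d / 2) / 6)) (ε / 24) := ⟨_, rfl⟩
  have hk0 : 0 < k := by
    rw [hk]
    exact lt_min (lt_min (by linarith) (by linarith)) (by linarith)
  have hk1 : k ≤ d / 8 := by rw [hk]; exact (min_le_left _ _).trans (min_le_left _ _)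
  have hk2 : k ≤ (κ - d / 2) / 6 := by rw [hk]; exact (min_le_left _ _).trans (min_le_right _ _)
  have hk3 : k ≤ ε / 24 := by rw [hk]; exact min_le_right _ _
  have hgap := convex_gap (d := d) h1 (x₁ := d / 2 - 2 * k) (x₂ := d / 2 - k) (by linarith)
    (by linarith) (by linarith)
  have h0 : 0 ≤ α := by linarith
  have hcont : Continuous fun s : ℝ => (d - (d / 2 - 2 * k) - s) ^ α -
      (d - (d / 2 - k) + s) ^ α - ((d / 2 - k + s) ^ α - (d / 2 - 2 * k - s) ^ α) := by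
    have hr : ∀ g : ℝ → ℝ, Continuous g → Continuous fun s => g s ^ α := fun g hg =>
      hg.rpow_const fun _ => Or.inr h0
    have c1 := hr (fun s => d - (d / 2 - 2 * k) - s) (by fun_prop)
    have c2 := hr (fun s => d - (d / 2 - k) + s) (by fun_prop)
    have c3 := hr (fun s => d / 2 - k + s) (by fun_prop)
    have c4 := hr (fun s => d / 2 - 2 * k - s) (by fun_prop)
    exact (c1.sub c2).sub (c3.sub c4)
  have h3 : ∀ᶠ s : ℝ in 𝓝[>] 0, 0 < (d - (d / 2 - 2 * k) - s) ^ α -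
      (d - (d / 2 - k) + s) ^ α - ((d / 2 - k + s) ^ α - (d / 2 - 2 * k - s) ^ α) := by
    have h4 : ∀ᶠ s : ℝ in 𝓝 0, 0 < (d - (d / 2 - 2 * k) - s) ^ α -
      (d - (d / 2 - k) + s) ^ α - ((d / 2 - k + s) ^ α - (d / 2 - 2 * k - s) ^ α) := by
      refine (hcont.tendsto 0).eventually_const_lt ?_
      simp only [sub_zero, add_zero]
      linarith
    exact h4.filter_mono nhdsWithin_le_nhds
  have h5 : ∀ᶠ s : ℝ in 𝓝[>] 0, s < k / 2 := by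
    have : ∀ᶠ s : ℝ in 𝓝 0, s < k / 2 := eventually_lt_nhds (by linarith)
    exact this.filter_mono nhdsWithin_le_nhds
  have h6 : ∀ᶠ s : ℝ in 𝓝[>] 0, 0 < s := eventually_mem_nhdsWithin
  obtain ⟨s, hs1, hs2, hs3⟩ := (h3.and (h5.and h6)).exists
  exact ⟨d / 2 - 2 * k, d / 2 - k, d / 2 + 3 * k, d / 2, s, by linarith, by linarith,
    by linarith, hs3, by linarith, by linarith, by linarith, by linarith, by linarith,
    by linarith, by linarith, by linarith, by linarith⟩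

variable {ι : Type} [Fintype ι]

lemma one_le_E2 (f : ι → Fac) (hb : bc f 1 = 1) {y : ℝ} (hy : 1 ≤ y) : 1 ≤ E2 f y := by
  unfold E2
  have h1 : 1 ∈ Finset.Icc 1 ⌊y⌋₊ := by
    rw [Finset.mem_Icc]
    exact ⟨le_rfl, Nat.le_floor (by exact_mod_cast hy)⟩
  have h2 := Finset.single_le_sum (f := fun k : ℕ => ‖bc f k‖ ^ 2)
    (fun k _ => by positivity) h1
  simp only [hb, norm_one, one_pow] at h2
  exact h2

/-- the final comparison for large `T` -/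
lemma finalB (f : ι → Fac) (hbc : bc f 1 = 1) {α : ℝ} (hRV : RV2 f α)
    {a b c e K c₁ c₂ c₃ c₄ A E : ℝ} (ha : 0 < a)
    (hb : 0 < b) (hc : 0 < c) (he : 0 < e) (hK : 0 < K) (hc1 : 0 < c₁) (hc2 : 0 < c₂)
    (hc3 : 0 < c₃) (hc4 : 0 < c₄) (hgap : c ^ α - e ^ α < a ^ α - b ^ α) :
    ∀ᶠ T : ℝ in atTop, K * (E2 f (T ^ c) - E2 f (T ^ e)) + T ^ (-c₂) +
      A * Real.log T * (T ^ (-c₃) + E * T ^ (-c₄)) + T ^ (-c₁) <
        K * (E2 f (T ^ a) - E2 f (T ^ b)) := by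
  obtain ⟨g, hg⟩ : ∃ g : ℝ, g = (a ^ α - b ^ α) - (c ^ α - e ^ α) := ⟨_, rfl⟩
  have hg0 : 0 < g := by rw [hg]; linarith
  have h1 : Tendsto (fun T : ℝ => (E2 f (T ^ a) / E2 f T - E2 f (T ^ b) / E2 f T) -
      (E2 f (T ^ c) / E2 f T - E2 f (T ^ e) / E2 f T)) atTop (𝓝 g) := by
    rw [hg]
    exact ((hRV a ha).sub (hRV b hb)).sub ((hRV c hc).sub (hRV e he))
  have h2 := h1.eventually_const_lt (show g / 2 < g by linarith)
  have hp : ∀ x : ℝ, 0 < x → Tendsto (fun T : ℝ => T ^ (-x)) atTop (𝓝 0) := fun x hx =>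
    tendsto_rpow_neg_atTop hx
  have hl : ∀ x : ℝ, 0 < x → Tendsto (fun T : ℝ => Real.log T * T ^ (-x)) atTop (𝓝 0) := by
    intro x hx
    have h3 := (isLittleO_log_rpow_atTop hx).tendsto_div_nhds_zero
    refine h3.congr' ?_
    filter_upwards [eventually_gt_atTop (0 : ℝ)] with T hT
    rw [Real.rpow_neg hT.le, div_eq_mul_inv]
  have h4 : Tendsto (fun T : ℝ => T ^ (-c₂) + (A * (Real.log T * T ^ (-c₃)) +
      A * E * (Real.log T * T ^ (-c₄))) + T ^ (-c₁)) atTop (𝓝 0) := by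
    have := ((hp c₂ hc2).add (((hl c₃ hc3).const_mul A).add
      ((hl c₄ hc4).const_mul (A * E)))).add (hp c₁ hc1)
    simpa using this
  have h5 := h4.eventually_lt_const (show 0 < K * (g / 2) by positivity)
  filter_upwards [h2, h5, eventually_ge_atTop (1 : ℝ)] with T hT2 hT5 hT1
  have hT0 : 0 < T := by linarith
  have hEn := one_le_E2 f hbc hT1
  have hEn0 : 0 < E2 f T := by linarith
  have h8 : K * (g / 2) ≤ K * ((E2 f (T ^ a) - E2 f (T ^ b)) -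
      (E2 f (T ^ c) - E2 f (T ^ e))) := by
    have h9 : (E2 f (T ^ a) - E2 f (T ^ b)) - (E2 f (T ^ c) - E2 f (T ^ e)) =
        E2 f T * ((E2 f (T ^ a) / E2 f T - E2 f (T ^ b) / E2 f T) -
      (E2 f (T ^ c) / E2 f T - E2 f (T ^ e) / E2 f T)) := by
      field_simp
    rw [h9]
    refine mul_le_mul_of_nonneg_left ?_ hK.le
    have h11 : g / 2 ≤ 1 * ((E2 f (T ^ a) / E2 f T - E2 f (T ^ b) / E2 f T) -
      (E2 f (T ^ c) / E2 f T - E2 f (T ^ e) / E2 f T)) := by linarith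
    refine h11.trans (mul_le_mul_of_nonneg_right hEn ?_)
    linarith
  have h12 : T ^ (-c₂) + A * Real.log T * (T ^ (-c₃) + E * T ^ (-c₄)) + T ^ (-c₁) =
      T ^ (-c₂) + (A * (Real.log T * T ^ (-c₃)) + A * E * (Real.log T * T ^ (-c₄))) +
        T ^ (-c₁) := by ring
  linarith

/-- the comparison on one window, for one value of `ξ` -/
lemma windowB {a b δ A : ℝ} (hab : a ≤ b) (hδ : 0 ≤ δ) {P Q : ℝ → ℂ}
    (hP : ContinuousOn P (Icc a b)) (hQ : ContinuousOn Q (Icc a b)) {G : Set ℝ}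
    (hGm : MeasurableSet G) (hG : G ⊆ Icc a b) (h2 : ∀ u ∈ G, ‖Q u‖ ^ 2 ≤ ‖P u‖ ^ 2 + δ)
    (h3 : ∫ u in Icc a b \ G, ‖Q u‖ ^ 2 ≤ A) :
    ∫ u in a..b, ‖Q u‖ ^ 2 ≤ (∫ u in a..b, ‖P u‖ ^ 2) + (δ * (b - a) + A) := by
  have hEs : Icc a b \ G ⊆ Icc a b := sdiff_subset
  have hEm : MeasurableSet (Icc a b \ G) := measurableSet_Icc.diff hGm
  have c1 : ContinuousOn (fun u => ‖Q u‖ ^ 2) (Icc a b) := hQ.norm.pow 2
  have c2 : ContinuousOn (fun u => ‖P u‖ ^ 2) (Icc a b) := hP.norm.pow 2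
  have c3 : ContinuousOn (fun u => ‖P u‖ ^ 2 + δ) (Icc a b) := c2.add continuousOn_const
  have i1 := c1.integrableOn_Icc (μ := volume)
  have i2 := c2.integrableOn_Icc (μ := volume)
  have i3 := c3.integrableOn_Icc (μ := volume)
  rw [intervalIntegral.integral_of_le hab, ← integral_Icc_eq_integral_Ioc,
    intervalIntegral.integral_of_le hab, ← integral_Icc_eq_integral_Ioc]
  have e1 : ∫ u in Icc a b, ‖Q u‖ ^ 2 = (∫ u in G, ‖Q u‖ ^ 2) +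
      ∫ u in Icc a b \ G, ‖Q u‖ ^ 2 := by
    have h7 : Icc a b = G ∪ (Icc a b \ G) := (union_sdiff_cancel hG).symm
    nth_rw 1 [h7]
    exact setIntegral_union disjoint_sdiff_right hEm (i1.mono_set hG) (i1.mono_set hEs)
  have b1 : ∫ u in G, ‖Q u‖ ^ 2 ≤ ∫ u in G, (‖P u‖ ^ 2 + δ) :=
    setIntegral_mono_on (i1.mono_set hG) (i3.mono_set hG) hGm fun u hu => h2 u hu
  have b2 : ∫ u in G, (‖P u‖ ^ 2 + δ) ≤ ∫ u in Icc a b, (‖P u‖ ^ 2 + δ) := by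
    refine setIntegral_mono_set i3 ?_ (LE.le.eventuallyLE hG)
    refine Eventually.of_forall fun u => ?_
    change (0 : ℝ) ≤ ‖P u‖ ^ 2 + δ
    positivity
  have b3 : ∫ u in Icc a b, (‖P u‖ ^ 2 + δ) = (∫ u in Icc a b, ‖P u‖ ^ 2) + δ * (b - a) := by
    rw [integral_add i2 (integrableOn_const (by
      rw [Real.volume_Icc]; exact ENNReal.ofReal_ne_top)),
      setIntegral_const, Real.volume_real_Icc_of_le hab, smul_eq_mul]
    ring
  rw [e1]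
  linarith

/-- the comparison of the double integrals, abstract form -/
lemma doubleB' {a b x₁ x₂ δ A : ℝ} (hab : a ≤ b) (hδ : 0 ≤ δ) (hx : x₁ ≤ x₂)
    {P Q : ℝ → ℝ → ℂ} (hP : Continuous fun p : ℝ × ℝ => P p.1 p.2)
    (hQ : Continuous fun p : ℝ × ℝ => Q p.1 p.2) {G : Set ℝ} (hGm : MeasurableSet G)
    (hG : G ⊆ Icc a b) (h2 : ∀ u ∈ G, ∀ ξ ∈ Icc x₁ x₂, ‖Q ξ u‖ ^ 2 ≤ ‖P ξ u‖ ^ 2 + δ)
    (h3 : ∀ ξ : ℝ, ∫ u in Icc a b \ G, ‖Q ξ u‖ ^ 2 ≤ A) :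
    (∫ ξ in x₁..x₂, ∫ u in a..b, ‖Q ξ u‖ ^ 2) ≤
      (∫ ξ in x₁..x₂, ∫ u in a..b, ‖P ξ u‖ ^ 2) + (x₂ - x₁) * (δ * (b - a) + A) := by
  have cA : Continuous fun ξ : ℝ => ∫ u in a..b, ‖P ξ u‖ ^ 2 := by
    apply intervalIntegral.continuous_parametric_intervalIntegral_of_continuous'
    exact hP.norm.pow 2
  have cB : Continuous fun ξ : ℝ => ∫ u in a..b, ‖Q ξ u‖ ^ 2 := by
    apply intervalIntegral.continuous_parametric_intervalIntegral_of_continuous'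
    exact hQ.norm.pow 2
  have key : ∀ ξ ∈ Icc x₁ x₂, (∫ u in a..b, ‖Q ξ u‖ ^ 2) ≤
      (∫ u in a..b, ‖P ξ u‖ ^ 2) + (δ * (b - a) + A) := by
    intro ξ hξ
    have c1 : Continuous fun u : ℝ => P ξ u := hP.comp (Continuous.prodMk_right ξ)
    have c2 : Continuous fun u : ℝ => Q ξ u := hQ.comp (Continuous.prodMk_right ξ)
    exact windowB hab hδ c1.continuousOn c2.continuousOn hGm hG
      (fun u hu => h2 u hu ξ hξ) (h3 ξ)
  have i1 := cA.intervalIntegrable (μ := volume) x₁ x₂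
  have i2 := cB.intervalIntegrable (μ := volume) x₁ x₂
  have h5 := intervalIntegral.integral_mono_on hx i2 (i1.add intervalIntegrable_const) key
  rw [intervalIntegral.integral_add i1 intervalIntegrable_const,
    intervalIntegral.integral_const, smul_eq_mul] at h5
  exact h5

/-- the comparison of the double integrals -/
lemma doubleB (f : ι → Fac) {a b β D D' T d B η x₁ x₂ δ A : ℝ} (ha : 1 ≤ a) (hab : a ≤ b)
    (hδ : 0 ≤ δ) (hx : x₁ ≤ x₂) {G : Set ℝ} (hGm : MeasurableSet G) (hG : G ⊆ Icc a b)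
    (h2 : ∀ u ∈ G, ∀ ξ ∈ Icc x₁ x₂, ‖BR f β D T d B η ξ u‖ ^ 2 ≤ ‖AL f β D' T ξ u‖ ^ 2 + δ)
    (h3 : ∀ ξ : ℝ, ∫ u in Icc a b \ G, ‖BR f β D T d B η ξ u‖ ^ 2 ≤ A) :
    (∫ ξ in x₁..x₂, ∫ u in a..b, ‖BR f β D T d B η ξ u‖ ^ 2) ≤
      (∫ ξ in x₁..x₂, ∫ u in a..b, ‖AL f β D' T ξ u‖ ^ 2) + (x₂ - x₁) * (δ * (b - a) + A) := by
  obtain ⟨P, hP⟩ : ∃ P : ℝ → ℝ → ℂ, P = fun ξ u => AL f β D' T ξ u := ⟨_, rfl⟩
  obtain ⟨Q, hQ⟩ : ∃ Q : ℝ → ℝ → ℂ, Q = fun ξ u => BR f β D T d B η ξ (max u 1) := ⟨_, rfl⟩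
  have cP : Continuous fun p : ℝ × ℝ => P p.1 p.2 := by
    rw [hP]
    exact continuous_AL f β D' T
  have cQ : Continuous fun p : ℝ × ℝ => Q p.1 p.2 := by
    rw [hQ]
    exact continuous_BR f β D T d B η
  have eP : ∀ ξ u, AL f β D' T ξ u = P ξ u := fun ξ u => by rw [hP]
  have eQ : ∀ ξ, ∀ u ∈ Icc a b, BR f β D T d B η ξ u = Q ξ u := by
    intro ξ u hu
    rw [hQ]
    simp only
    rw [max_eq_left (ha.trans hu.1)]
  have h6 : (∫ ξ in x₁..x₂, ∫ u in a..b, ‖BR f β D T d B η ξ u‖ ^ 2) =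
      ∫ ξ in x₁..x₂, ∫ u in a..b, ‖Q ξ u‖ ^ 2 := by
    refine intervalIntegral.integral_congr fun ξ _ => ?_
    refine intervalIntegral.integral_congr fun u hu => ?_
    rw [uIcc_of_le hab] at hu
    simp only [eQ ξ u hu]
  have h8 : ∀ ξ : ℝ, ∫ u in Icc a b \ G, ‖Q ξ u‖ ^ 2 ≤ A := by
    intro ξ
    refine le_of_eq_of_le ?_ (h3 ξ)
    refine setIntegral_congr_fun (measurableSet_Icc.diff hGm) fun u hu => ?_
    simp only [eQ ξ u hu.1]
  rw [h6]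
  simp only [eP] at h2 ⊢
  exact doubleB' hab hδ hx cP cQ hGm hG
    (fun u hu ξ hξ => by rw [← eQ ξ u (hG hu)]; exact h2 u hu ξ hξ) h8

/-- (CSB) -/
theorem pf_CSB (h1 : T_SQD) (h2 : T_MSA) (h3 : T_MSB) (h4 : T_FMB) (h5 : T_GRS) : T_CSB := by
  intro ι _ f Y d t₀ α ε κ m hID hY hd hd2 hκ1 hα hRV hε hm
  obtain ⟨x₁, x₂, D, D', δ, hx1, hx12, hx2d, hδ, hx2D, hD'κ, hdD, hDκ, hDε, hpos1, hpos2,
    hpos3, hgap⟩ := paramsB hd hd2 hα hε
  have hκ0 : 0 < κ := by linarith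
  have hr1 : ∀ l, 1 ≤ (f l).r := fun l => by
    obtain ⟨a, ha, hra⟩ := hID l
    rw [hra]
    exact_mod_cast ha
  have hD0 : 0 < D := by linarith
  obtain ⟨κ₀, B, η, C₀, hκ₀, hph⟩ := hY.main
  obtain ⟨hbc, -⟩ := h5 ι f D hID hD0
  obtain ⟨β₁, hβ₁, hSQD⟩ := h1 ι f Y d t₀ x₁ x₂ D D' m κ₀ B η C₀ hr1 hID hY hκ₀ hph hx1 hx12
    hx2d (by linarith) (by linarith) (by linarith) (by linarith) hm
  obtain ⟨C₄, hC₄, hFMB⟩ := h4 ι f D (ε / 8) hID hD0 (by linarith)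
  refine ⟨β₁, hβ₁, fun β hβ C => ?_⟩
  have hβ0 : 0 < β := hβ₁.trans_le hβ
  obtain ⟨c₃, T₃, hc₃, hSQD⟩ := hSQD β hβ C
  obtain ⟨c₂, T₂, hc₂, hMSA⟩ := h2 ι f β D' x₁ x₂ δ κ hID hβ0 hx1 hx12 hδ hx2D hD'κ hκ1
  obtain ⟨c₁, T₁, hc₁, hMSB⟩ := h3 ι f β D d B η x₁ x₂ δ κ hID hβ0 hd hx1 hx12 hx2d hδ hdD
    hDκ hκ1
  obtain ⟨K, hK⟩ : ∃ K : ℝ, K = Real.sqrt (2 * Real.pi) / β := ⟨_, rfl⟩
  have hK0 : 0 < K := by
    rw [hK]
    have : 0 < Real.sqrt (2 * Real.pi) := Real.sqrt_pos.2 (by positivity)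
    positivity
  have hfin := finalB f hbc hRV (a := d - x₁ - δ) (b := d - x₂ + δ) (c := x₂ + δ)
    (e := x₁ - δ) (K := K) (c₁ := c₁) (c₂ := c₂) (c₃ := c₃) (c₄ := ε / 4) (A := x₂ - x₁)
    (E := 4 * C₄) hpos3 hpos2 (by linarith) hpos1 hK0 hc₁ hc₂ hc₃ (by linarith) hgap
  have hVl : ∀ᶠ T : ℝ in atTop, 2 ≤ T ^ κ := (tendsto_rpow_atTop hκ0).eventually_ge_atTop 2
  obtain ⟨T₀, hT₀⟩ := eventually_atTop.1 (hfin.and (hVl.and ((eventually_ge_atTop T₁).and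
    ((eventually_ge_atTop T₂).and ((eventually_ge_atTop T₃).and (eventually_ge_atTop 3))))))
  refine ⟨T₀, fun T hT G hGm hG hclean => ?_⟩
  obtain ⟨hfi, hV2, hT1, hT2, hT3, hT33⟩ := hT₀ T hT
  have hT0 : 0 < T := by linarith
  have hT1' : 1 ≤ T := by linarith
  have hL0 : 0 < Real.log T := Real.log_pos (by linarith)
  have hTκ : T ^ κ ≤ T := by
    have := Real.rpow_le_rpow_of_exponent_le hT1' hκ1
    rwa [Real.rpow_one] at this
  by_contra hcon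
  push Not at hcon
  obtain ⟨H, hH⟩ : ∃ H : ℝ, H = T + T ^ κ / 4 := ⟨_, rfl⟩
  obtain ⟨V, hV⟩ : ∃ V : ℝ, V = T ^ κ / 2 := ⟨_, rfl⟩
  have hHV : T + 3 * T ^ κ / 4 = H + V := by rw [hH, hV]; ring
  rw [← hH, hHV] at hG hcon
  have hHT : T ≤ H := by rw [hH]; linarith
  have hV1 : 1 ≤ V := by rw [hV]; linarith
  have hV4 : T ^ κ / 4 ≤ V := by rw [hV]; linarith
  have hHV2 : H + V ≤ 2 * T := by rw [← hHV]; linarith
  have hsub : Icc H (H + V) ⊆ Icc T (2 * T) := Icc_subset_Icc hHT hHV2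
  have hx12' : x₁ * Real.log T ≤ x₂ * Real.log T := mul_le_mul_of_nonneg_right hx12.le hL0.le
  have hEm : MeasurableSet (Icc H (H + V) \ G) := measurableSet_Icc.diff hGm
  have hEs : Icc H (H + V) \ G ⊆ Icc H (H + V) := sdiff_subset
  -- the set of bad heights
  have hbad : ∀ ξ : ℝ, ∫ u in Icc H (H + V) \ G, ‖BR f β D T d B η ξ u‖ ^ 2 ≤
      2 * C₄ * T ^ (κ - ε / 4) := by
    intro ξ
    refine (hFMB β d B η hβ0 T hT1' ξ H V hHT hV1 _ hEm hEs).trans ?_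
    have k1 : volume.real (Icc H (H + V) \ G) ^ (1 / 2 : ℝ) ≤
        T ^ ((min κ (2 * κ - d) - ε) / 2) := by
      have := Real.rpow_le_rpow measureReal_nonneg hcon.le (show (0 : ℝ) ≤ 1 / 2 by norm_num)
      rw [← Real.rpow_mul hT0.le] at this
      refine this.trans (le_of_eq ?_)
      congr 1
      ring
    have k2 : (V + T ^ (2 * D)) ^ (1 / 2 : ℝ) ≤ 2 * T ^ ((max κ d + ε / 4) / 2) := by
      have k3 : V + T ^ (2 * D) ≤ 2 ^ (2 : ℝ) * T ^ (max κ d + ε / 4) := by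
        have k4 : T ^ κ ≤ T ^ (max κ d + ε / 4) :=
          Real.rpow_le_rpow_of_exponent_le hT1' (by linarith [le_max_left κ d])
        have k5 : T ^ (2 * D) ≤ T ^ (max κ d + ε / 4) :=
          Real.rpow_le_rpow_of_exponent_le hT1' (by linarith [le_max_right κ d])
        have k6 : (2 : ℝ) ^ (2 : ℝ) = 4 := by norm_num
        have k7 : 0 < T ^ κ := Real.rpow_pos_of_pos hT0 _
        rw [k6, hV]
        linarith
      have k8 := Real.rpow_le_rpow (by positivity) k3 (show (0 : ℝ) ≤ 1 / 2 by norm_num)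
      rw [Real.mul_rpow (by positivity) (by positivity), ← Real.rpow_mul (by norm_num),
        ← Real.rpow_mul hT0.le] at k8
      have k9 : (2 : ℝ) * (1 / 2) = 1 := by norm_num
      rw [k9, Real.rpow_one] at k8
      refine k8.trans (le_of_eq ?_)
      congr 2
      ring
    have k10 : T ^ (ε / 8) * (T ^ ((min κ (2 * κ - d) - ε) / 2) *
        T ^ ((max κ d + ε / 4) / 2)) = T ^ (κ - ε / 4) := by
      rw [← Real.rpow_add hT0, ← Real.rpow_add hT0]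
      congr 1
      rcases le_total κ d with h | h
      · rw [max_eq_right h, min_eq_right (by linarith)]
        ring
      · rw [max_eq_left h, min_eq_left (by linarith)]
        ring
    have k11 : volume.real (Icc H (H + V) \ G) ^ (1 / 2 : ℝ) *
        (V + T ^ (2 * D)) ^ (1 / 2 : ℝ) ≤
        T ^ ((min κ (2 * κ - d) - ε) / 2) * (2 * T ^ ((max κ d + ε / 4) / 2)) :=
      mul_le_mul k1 k2 (by positivity) (by positivity)
    calc C₄ * T ^ (ε / 8) * volume.real (Icc H (H + V) \ G) ^ (1 / 2 : ℝ) *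
          (V + T ^ (2 * D)) ^ (1 / 2 : ℝ)
        = C₄ * T ^ (ε / 8) * (volume.real (Icc H (H + V) \ G) ^ (1 / 2 : ℝ) *
          (V + T ^ (2 * D)) ^ (1 / 2 : ℝ)) := by ring
      _ ≤ C₄ * T ^ (ε / 8) * (T ^ ((min κ (2 * κ - d) - ε) / 2) *
          (2 * T ^ ((max κ d + ε / 4) / 2))) := mul_le_mul_of_nonneg_left k11 (by positivity)
      _ = 2 * C₄ * (T ^ (ε / 8) * (T ^ ((min κ (2 * κ - d) - ε) / 2) *
          T ^ ((max κ d + ε / 4) / 2))) := by ring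
      _ = _ := by rw [k10]
  have hclose : ∀ u ∈ G, ∀ ξ ∈ Icc (x₁ * Real.log T) (x₂ * Real.log T),
      ‖BR f β D T d B η ξ u‖ ^ 2 ≤ ‖AL f β D' T ξ u‖ ^ 2 + T ^ (-c₃) := by
    intro u hu ξ hξ
    have := hSQD T hT3 u (hsub (hG hu)) (hclean u hu) ξ hξ.1 hξ.2
    linarith [(abs_le.1 this).1]
  have hmain := doubleB f (β := β) (D := D) (D' := D') (T := T) (d := d) (B := B) (η := η)
    (x₁ := x₁ * Real.log T) (x₂ := x₂ * Real.log T) (δ := T ^ (-c₃))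
    (A := 2 * C₄ * T ^ (κ - ε / 4)) (hT1'.trans hHT) (by linarith)
    (Real.rpow_pos_of_pos hT0 _).le hx12' hGm hG hclose hbad
  have hlow := (hMSB T hT1 H V hHT hV4 hHV2).1
  have hup := (hMSA T hT2 H V hHT hV4 hHV2).2
  rw [← hK] at hlow hup
  have e1 : T ^ (κ - ε / 4) = 2 * V * T ^ (-(ε / 4)) := by
    rw [sub_eq_add_neg, Real.rpow_add hT0, hV]
    ring
  have e2 : (x₂ * Real.log T - x₁ * Real.log T) * (T ^ (-c₃) * (H + V - H) +
      2 * C₄ * T ^ (κ - ε / 4)) = V * ((x₂ - x₁) * Real.log T * (T ^ (-c₃) +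
        4 * C₄ * T ^ (-(ε / 4)))) := by
    rw [e1]
    ring
  rw [e2] at hmain
  have hV0 : 0 < V := by linarith
  have h9 := mul_lt_mul_of_pos_left hfi hV0
  have e3 : V * (K * (E2 f (T ^ (x₂ + δ)) - E2 f (T ^ (x₁ - δ))) + T ^ (-c₂) +
      (x₂ - x₁) * Real.log T * (T ^ (-c₃) + 4 * C₄ * T ^ (-(ε / 4))) + T ^ (-c₁)) =
      V * K * (E2 f (T ^ (x₂ + δ)) - E2 f (T ^ (x₁ - δ))) + V * T ^ (-c₂) +
      V * ((x₂ - x₁) * Real.log T * (T ^ (-c₃) + 4 * C₄ * T ^ (-(ε / 4)))) +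
        V * T ^ (-c₁) := by ring
  have e4 : V * (K * (E2 f (T ^ (d - x₁ - δ)) - E2 f (T ^ (d - x₂ + δ)))) =
      V * K * (E2 f (T ^ (d - x₁ - δ)) - E2 f (T ^ (d - x₂ + δ))) := by ring
  rw [e3, e4] at h9
  linarith

end Pool.Agent.H3.RS
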