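import Pool.Agent.H29.RS.Targets
import Pool.Agent.H53.RT.COS

/-!
# (SQD) the squares of the two sides at a clean height
-/

set_option autoImplicit false

open Complex MeasureTheory Set Filter Topology

namespace Pool.Agent.H3.RS

open Pool.Agent.H29.RT Pool.Agent.H29.RS Pool.Agent.H25.DP Pool.Agent.H25.DL Pool.Agent.H25.MZ
open Pool.Agent.H53.RT (KR_mul norm_root)

variable {ι : Type} [Fintype ι]

/-- the comparison of the two sides at a clean height -/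
lemma near' {p q r s a b κ c e : ℂ} {δ : ℝ} (hω : ‖c‖ = 1) (hκ : ‖κ‖ = 1) (he : ‖e‖ = 1)
    (h1 : ‖r - q‖ ≤ δ) (h2 : ‖c * r - s‖ ≤ δ) (h3 : ‖s - p‖ ≤ δ) (h4 : ‖p - a‖ ≤ δ)
    (h5 : ‖q - κ * e * b‖ ≤ δ) : |‖a‖ - ‖b‖| ≤ 5 * δ := by
  have h7 : a - c * κ * e * b = c * (q - κ * e * b) + c * (r - q) - (c * r - s) - (s - p) -
      (p - a) := by ring
  have h8 : ‖c * κ * e * b‖ = ‖b‖ := by
    rw [norm_mul, norm_mul, norm_mul, hω, hκ, he]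
    ring
  have h9 : ‖c * (q - κ * e * b)‖ ≤ δ := by rw [norm_mul, hω, one_mul]; exact h5
  have h10 : ‖c * (r - q)‖ ≤ δ := by rw [norm_mul, hω, one_mul]; exact h1
  have h11 := abs_norm_sub_norm_le a (c * κ * e * b)
  rw [h8] at h11
  refine h11.trans ?_
  rw [h7]
  have k1 := norm_sub_le (c * (q - κ * e * b) + c * (r - q) - (c * r - s) - (s - p)) (p - a)
  have k2 := norm_sub_le (c * (q - κ * e * b) + c * (r - q) - (c * r - s)) (s - p)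
  have k3 := norm_sub_le (c * (q - κ * e * b) + c * (r - q)) (c * r - s)
  have k4 := norm_add_le (c * (q - κ * e * b)) (c * (r - q))
  linarith

/-- the difference of the squares -/
lemma sq_diff {a b δ K : ℝ} (ha : 0 ≤ a) (hb : 0 ≤ b) (hbK : b ≤ K) (h : |a - b| ≤ δ) :
    |a ^ 2 - b ^ 2| ≤ δ * (2 * K + δ) := by
  have h1 : a ^ 2 - b ^ 2 = (a - b) * (a + b) := by ring
  have h2 : a ≤ b + δ := by linarith [(abs_le.1 h).2]
  rw [h1, abs_mul, abs_of_nonneg (show 0 ≤ a + b by linarith)]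
  exact mul_le_mul h (by linarith) (by linarith) ((abs_nonneg _).trans h)

lemma norm_BR_le (f : ι → Fac) (β D T d B η ξ u : ℝ) :
    ‖BR f β D T d B η ξ u‖ ≤ ∑ z ∈ TU f D T, ‖co f z‖ := by
  unfold BR
  refine (norm_sum_le _ _).trans (Finset.sum_le_sum fun z _ => ?_)
  rw [norm_mul, norm_mul, Complex.norm_exp_ofReal_mul_I, mul_one, Complex.norm_real,
    Real.norm_eq_abs, abs_of_pos (Real.exp_pos _)]
  have h1 : Real.exp (-(β ^ 2 * (d * Real.log u + d + B + η / u - lam f z - ξ) ^ 2 / 4)) ≤ 1 :=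
    Real.exp_le_one_iff.2 (by
      have : 0 ≤ β ^ 2 * (d * Real.log u + d + B + η / u - lam f z - ξ) ^ 2 / 4 := by positivity
      linarith)
  calc ‖co f z‖ * _ ≤ ‖co f z‖ * 1 := mul_le_mul_of_nonneg_left h1 (norm_nonneg _)
    _ = _ := mul_one _

/-- (SQD) -/
theorem pf_SQD (h1 : T_EXX) (h2 : T_SHX) (h3 : T_LLX) (h4 : T_DLE) (h5 : T_KXS) (h6 : T_GRS) :
    T_SQD := by
  intro ι _ f Y d t₀ x₁ x₂ D D' m κ B η C₀ hr1 hID hY hκ hph hx1 hx12 hx2d hdD hD1 hx2D hD'1 hm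
  have hx2 : 0 < x₂ := by linarith
  have hD'0 : 0 < D' := by linarith
  have hD0 : 0 < D := by linarith
  obtain ⟨β₁, hβ₁, hEXX⟩ := h1 ι f Y d t₀ x₁ D hY hx1 (by linarith) (by linarith) hr1
  obtain ⟨β₂, hβ₂, hLLX⟩ := h3 ι f x₂ D' hx2 hx2D hr1
  obtain ⟨-, -, -, -, -, hG6⟩ := h6 ι f D hID hD0
  obtain ⟨K, hK, hco⟩ := hG6 ((1 - D) / 8) (by linarith)
  refine ⟨max β₁ β₂, lt_max_of_lt_left hβ₁, fun β hβ C => ?_⟩
  have hβ0 : 0 < β := hβ₁.trans_le ((le_max_left _ _).trans hβ)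
  obtain ⟨T₁, hEXX⟩ := hEXX β ((le_max_left _ _).trans hβ)
  obtain ⟨T₂, hLLX⟩ := hLLX β ((le_max_right _ _).trans hβ)
  obtain ⟨T₄, hDLE⟩ := h4 ι f D' β hr1 hD'0 hD'1 hβ0
  obtain ⟨T₅, hKXE⟩ := h5 ι f Y d t₀ κ B η C₀ β D hr1 hβ0 hD0 hD1 hY hκ hph
  have hSHX : ∀ᶠ T : ℝ in atTop, ∀ ω ∈ Polynomial.nthRootsFinset m (1 : ℂ), ∀ u ∈ Icc T (2 * T),
      Clean f (fun s => ω * Y s) β C T u → ∀ ξ : ℝ, 0 ≤ ξ → ξ ≤ x₂ * Real.log T →
      ‖KR f (fun s => ω * Y s) β ξ (Real.log T) u - LR f β ξ (Real.log T) u‖ ≤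
        T ^ (-(1 / 2) : ℝ) := by
    rw [Filter.eventually_all_finset]
    intro ω _
    obtain ⟨T', hT'⟩ := h2 ι f (fun s => ω * Y s) β C x₂ hβ0 hx2.le
    filter_upwards [eventually_ge_atTop T'] with T hT
    exact hT' T hT
  have hlim : ∀ᶠ T : ℝ in atTop, 10 * K * T ^ (-(1 / 2 - D / 2 - (1 - D) / 4) : ℝ) +
      25 * T ^ (-(1 - (1 - D) / 8) : ℝ) < 1 := by
    have := ((tendsto_rpow_neg_atTop (show 0 < 1 / 2 - D / 2 - (1 - D) / 4 by linarith)).const_mul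
      (10 * K)).add ((tendsto_rpow_neg_atTop (show 0 < 1 - (1 - D) / 8 by linarith)).const_mul 25)
    simp only [mul_zero, add_zero] at this
    exact this.eventually_lt_const one_pos
  obtain ⟨T₀, hT₀⟩ := eventually_atTop.1 (hSHX.and (hlim.and ((eventually_ge_atTop T₁).and
    ((eventually_ge_atTop T₂).and ((eventually_ge_atTop T₄).and
      ((eventually_ge_atTop T₅).and (eventually_ge_atTop 3)))))))
  refine ⟨(1 - D) / 8, T₀, by linarith, fun T hT u hu ⟨ω, hω, hcl⟩ ξ hξ1 hξ2 => ?_⟩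
  obtain ⟨hSH, hli, hT1, hT2, hT4, hT5, hT33⟩ := hT₀ T hT
  have hT0 : 0 < T := by linarith
  have hT1' : 1 ≤ T := by linarith
  have hL0 : 0 < Real.log T := Real.log_pos (by linarith)
  have hξ0 : 0 ≤ ξ := le_trans (by positivity) hξ1
  have hω1 := norm_root hm hω
  have hωm : ω ∈ Polynomial.nthRootsFinset m (1 : ℂ) :=
    (Polynomial.mem_nthRootsFinset (by omega) 1).2 hω
  have k1 := hEXX T hT1 u hu ξ hξ1
  have k2 := hLLX T hT2 u ξ hξ0 hξ2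
  have k3 := hSH ω hωm u hu hcl ξ hξ0 hξ2
  rw [KR_mul] at k3
  have k4 := hDLE T hT4 u ξ
  have k5 := hKXE T hT5 u hu ξ
  have k6 : T ^ (-5 : ℝ) ≤ T ^ (-(1 / 2) : ℝ) :=
    Real.rpow_le_rpow_of_exponent_le hT1' (by norm_num)
  have hne := near' hω1 hκ (Complex.norm_exp_ofReal_mul_I _) k1 k3 k2 (k4.trans k6) k5
  have hBR := (norm_BR_le f β D T d B η ξ u).trans (hco T hT1')
  refine (sq_diff (norm_nonneg _) (norm_nonneg _) hBR hne).trans ?_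
  have e1 : T ^ (-(1 / 2) : ℝ) * T ^ (D / 2 + (1 - D) / 8) =
      T ^ (-(1 / 2 - D / 2 - (1 - D) / 4) : ℝ) * T ^ (-((1 - D) / 8)) := by
    rw [← Real.rpow_add hT0, ← Real.rpow_add hT0]
    congr 1
    ring
  have e2 : T ^ (-(1 / 2) : ℝ) * T ^ (-(1 / 2) : ℝ) =
      T ^ (-(1 - (1 - D) / 8) : ℝ) * T ^ (-((1 - D) / 8)) := by
    rw [← Real.rpow_add hT0, ← Real.rpow_add hT0]
    congr 1
    ring
  have e3 : 5 * T ^ (-(1 / 2) : ℝ) * (2 * (K * T ^ (D / 2 + (1 - D) / 8)) +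
      5 * T ^ (-(1 / 2) : ℝ)) = (10 * K * T ^ (-(1 / 2 - D / 2 - (1 - D) / 4) : ℝ) +
      25 * T ^ (-(1 - (1 - D) / 8) : ℝ)) * T ^ (-((1 - D) / 8)) := by
    calc _ = 10 * K * (T ^ (-(1 / 2) : ℝ) * T ^ (D / 2 + (1 - D) / 8)) +
        25 * (T ^ (-(1 / 2) : ℝ) * T ^ (-(1 / 2) : ℝ)) := by ring
      _ = _ := by rw [e1, e2]; ring
  rw [e3]
  have e4 : 0 < T ^ (-((1 - D) / 8)) := Real.rpow_pos_of_pos hT0 _
  calc _ ≤ 1 * T ^ (-((1 - D) / 8)) := mul_le_mul_of_nonneg_right hli.le e4.le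
    _ = _ := one_mul _

end Pool.Agent.H3.RS
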